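import Pool.Agent.H55.FFM.TP

/-!
# Row EXT: extension of a place
-/

set_option autoImplicit false

namespace Pool.Agent.H60.FFM

open Pool.Agent.H55.FFM

section

variable {k F S : Type} [Field k] [Field F] [Algebra k F] {v : S → F → ℤ}

/-- the valuation as a homomorphism -/
def hv (h : Vs k v) (s : S) : Fˣ →* Multiplicative ℤ where
  toFun u := Multiplicative.ofAdd (v s (u : F))
  map_one' := by
    have h1 := h.mul s 1 1 one_ne_zero one_ne_zero
    rw [mul_one] at h1
    have h2 : v s (1 : F) = 0 := by omega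
    rw [Units.val_one, h2]
    rfl
  map_mul' a b := by
    rw [Units.val_mul, h.mul s _ _ a.ne_zero b.ne_zero]
    rfl

theorem v_one (h : Vs k v) (s : S) : v s (1 : F) = 0 := by
  have h1 := h.mul s 1 1 one_ne_zero one_ne_zero
  rw [mul_one] at h1
  omega

theorem v_zpow (h : Vs k v) (s : S) (a : F) (ha : a ≠ 0) (n : ℤ) : v s (a ^ n) = n * v s a := by
  have h1 := map_zpow (hv h s) (Units.mk0 a ha) n
  have h2 := congrArg Multiplicative.toAdd h1
  rw [toAdd_zpow, smul_eq_mul] at h2
  have h3 : ((Units.mk0 a ha ^ n : Fˣ) : F) = a ^ n := by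
    rw [Units.val_zpow_eq_zpow_val, Units.val_mk0]
  have h4 : Multiplicative.toAdd (hv h s (Units.mk0 a ha ^ n)) =
      v s ((Units.mk0 a ha ^ n : Fˣ) : F) := rfl
  rw [h4, h3] at h2
  exact h2

theorem v_inv (h : Vs k v) (s : S) (a : F) (ha : a ≠ 0) : v s a⁻¹ = -v s a := by
  have h1 := v_zpow h s a ha (-1)
  rw [zpow_neg_one] at h1
  rw [h1]
  ring

end

theorem pf_EXT : T_EXT := by
  intro k F _ _ _ _ _ R S _ v τ hC hP hR s'
  have hV : Vs k v := hP.toVs
  have hτ0 : ∀ {a : F}, a ≠ 0 → τ a ≠ 0 := fun {a} ha h =>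
    ha (by rwa [map_eq_zero_iff τ τ.toRingHom.injective] at h)
  -- the image of the valuation ring
  let A : Subring F :=
    { carrier := {x | ∃ a, (a = 0 ∨ 0 ≤ v s' a) ∧ τ a = x}
      mul_mem' := by
        rintro _ _ ⟨a, ha, rfl⟩ ⟨b, hb, rfl⟩
        refine ⟨a * b, ?_, map_mul _ _ _⟩
        rcases eq_or_ne a 0 with rfl | ha0
        · exact Or.inl (zero_mul _)
        · rcases eq_or_ne b 0 with rfl | hb0
          · exact Or.inl (mul_zero _)
          · right
            rw [hV.mul s' a b ha0 hb0]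
            exact add_nonneg (ha.resolve_left ha0) (hb.resolve_left hb0)
      one_mem' := ⟨1, Or.inr (v_one hV s').ge, map_one _⟩
      add_mem' := by
        rintro _ _ ⟨a, ha, rfl⟩ ⟨b, hb, rfl⟩
        refine ⟨a + b, ?_, map_add _ _ _⟩
        rcases eq_or_ne a 0 with rfl | ha0
        · rwa [zero_add]
        · rcases eq_or_ne b 0 with rfl | hb0
          · rwa [add_zero]
          · rcases eq_or_ne (a + b) 0 with h0 | h0
            · exact Or.inl h0
            · right
              exact (le_min (ha.resolve_left ha0) (hb.resolve_left hb0)).trans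
                (hV.add s' a b ha0 hb0 h0)
      zero_mem' := ⟨0, Or.inl rfl, map_zero _⟩
      neg_mem' := by
        rintro _ ⟨a, ha, rfl⟩
        refine ⟨-a, ?_, map_neg _ _⟩
        rcases eq_or_ne a 0 with rfl | ha0
        · exact Or.inl neg_zero
        · right
          have h1 : -a = algebraMap k F (-1) * a := by
            rw [map_neg, map_one, neg_one_mul]
          have h2 : algebraMap k F (-1) ≠ 0 := by
            rw [map_neg, map_one]
            exact neg_ne_zero.2 one_ne_zero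
          rw [h1, hV.mul s' _ _ h2 ha0, hV.cst s' _ (neg_ne_zero.2 one_ne_zero), zero_add]
          exact ha.resolve_left ha0 }
  let I : Ideal A :=
    { carrier := {x | ∃ a, (a = 0 ∨ 0 < v s' a) ∧ τ a = x}
      add_mem' := by
        rintro x y ⟨a, ha, hx⟩ ⟨b, hb, hy⟩
        refine ⟨a + b, ?_, ?_⟩
        · rcases eq_or_ne a 0 with rfl | ha0
          · rwa [zero_add]
          · rcases eq_or_ne b 0 with rfl | hb0
            · rwa [add_zero]
            · rcases eq_or_ne (a + b) 0 with h0 | h0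
              · exact Or.inl h0
              · right
                exact (lt_min (ha.resolve_left ha0) (hb.resolve_left hb0)).trans_le
                  (hV.add s' a b ha0 hb0 h0)
        · rw [map_add, hx, hy]
          rfl
      zero_mem' := ⟨0, Or.inl rfl, map_zero _⟩
      smul_mem' := by
        rintro ⟨x, b, hb, hbx⟩ y ⟨a, ha, hy⟩
        refine ⟨b * a, ?_, ?_⟩
        · rcases eq_or_ne a 0 with rfl | ha0
          · exact Or.inl (mul_zero _)
          · rcases eq_or_ne b 0 with rfl | hb0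
            · exact Or.inl (zero_mul _)
            · right
              rw [hV.mul s' b a hb0 ha0]
              exact add_pos_of_nonneg_of_pos (hb.resolve_left hb0) (ha.resolve_left ha0)
        · rw [map_mul]
          exact congrArg₂ (· * ·) hbx hy }
  have hI : I ≠ ⊤ := by
    rw [Ne, Ideal.eq_top_iff_one]
    rintro ⟨a, ha, h1⟩
    have h2 : a = 1 := by
      apply τ.toRingHom.injective
      show τ a = τ 1
      rw [h1, map_one]
      rfl
    rw [h2, v_one hV s'] at ha
    rcases ha with h | h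
    · exact one_ne_zero h
    · exact lt_irrefl _ h
  obtain ⟨O, hAO, hIO⟩ := Ideal.image_subset_nonunits_valuationSubring I hI
  have hpos : ∀ a : F, a ≠ 0 → 0 ≤ v s' a → τ a ∈ O := fun a ha h =>
    hAO (show τ a ∈ A from ⟨a, Or.inr h, rfl⟩)
  have hneg : ∀ a : F, a ≠ 0 → 0 < v s' a → (τ a)⁻¹ ∉ O := by
    intro a ha h hmem
    have h1 : τ a ∈ O.nonunits := by
      refine hIO ⟨⟨τ a, a, Or.inr h.le, rfl⟩, ?_, rfl⟩
      exact ⟨a, Or.inr h, rfl⟩
    rw [ValuationSubring.mem_nonunits_iff] at h1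
    have h2 := (O.valuation_le_one_iff _).2 hmem
    rw [map_inv₀] at h2
    have h3 : O.valuation (τ a) ≠ 0 := (Valuation.ne_zero_iff _).2 (hτ0 ha)
    have h4 : 1 < (O.valuation (τ a))⁻¹ := (one_lt_inv₀ (zero_lt_iff.2 h3)).2 h1
    exact absurd h2 (not_le.2 h4)
  obtain ⟨l, hl, hl0, hlneg⟩ := hP.neg
  obtain ⟨s, hs⟩ := hP.uni O (fun c => by
      rcases eq_or_ne c 0 with rfl | hc
      · rw [map_zero]
        exact O.zero_mem
      · have h1 : algebraMap k F c ≠ 0 := (map_ne_zero _).2 hc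
        have h2 := hpos _ h1 (hV.cst s' c hc).ge
        rwa [AlgHom.commutes] at h2) ⟨τ l, hR l hl, by
      have h1 := hneg l⁻¹ (inv_ne_zero hl0) (by
        rw [v_inv hV s' l hl0]
        have := hlneg s'
        omega)
      rwa [map_inv₀, inv_inv] at h1⟩
  have w0 : ∀ a : F, a ≠ 0 → 0 ≤ v s' a → 0 ≤ v s (τ a) := fun a ha h =>
    (hs _ (hτ0 ha)).1 (hpos a ha h)
  have w1 : ∀ a : F, a ≠ 0 → 0 < v s' a → 0 < v s (τ a) := by
    intro a ha h
    have h1 := hneg a ha h
    rw [hs _ (inv_ne_zero (hτ0 ha)), v_inv hV s _ (hτ0 ha)] at h1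
    omega
  obtain ⟨p, hp0, hp⟩ := hV.nrm s'
  refine ⟨s, v s (τ p), ?_, ?_⟩
  · have := w1 p hp0 (by omega)
    omega
  · intro a ha
    obtain ⟨m, hm⟩ : ∃ m, m = v s' a := ⟨_, rfl⟩
    have hq0 : a * p ^ (-m) ≠ 0 := mul_ne_zero ha (zpow_ne_zero _ hp0)
    have h1 : v s' (a * p ^ (-m)) = 0 := by
      rw [hV.mul s' _ _ ha (zpow_ne_zero _ hp0), v_zpow hV s' p hp0, hp, ← hm]
      ring
    have h2 := w0 _ hq0 h1.ge
    have h3 := w0 _ (inv_ne_zero hq0) (by rw [v_inv hV s' _ hq0, h1, neg_zero])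
    rw [map_inv₀, v_inv hV s _ (hτ0 hq0)] at h3
    have h4 : v s (τ (a * p ^ (-m))) = v s (τ a) + -m * v s (τ p) := by
      rw [map_mul, map_zpow₀, hV.mul s _ _ (hτ0 ha) (zpow_ne_zero _ (hτ0 hp0)),
        v_zpow hV s _ (hτ0 hp0)]
    rw [h4] at h2 h3
    rw [← hm]
    linarith

end Pool.Agent.H60.FFM
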