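import Pool.Agent.H55.FFM.TD

/-! Row EV4 of board ffm (MP_ccfdad_ag): evaluation of a polynomial in four variables. -/

set_option autoImplicit false

open MvPolynomial Pool.Agent.H18.HIT Pool.Agent.H55.FFM

namespace Pool.Agent.H60.FFM

theorem ev4_deg {k : Type} [Field k] (J : Po 3 k) (i j : Fin 3) (Φ : MvPolynomial (Fin 4) k)
    (c : k) : (aeval ![(X i : Po 3 k), X j, J, C c] Φ).totalDegree ≤
      degreeOf 0 Φ + degreeOf 1 Φ + degreeOf 2 Φ * J.totalDegree := by
  rw [aeval_def, eval₂_eq']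
  refine totalDegree_finsetSum_le fun e he => ?_
  have h0 := monomial_le_degreeOf 0 he
  have h1 := monomial_le_degreeOf 1 he
  have h2 := monomial_le_degreeOf 2 he
  rw [Fin.prod_univ_four]
  simp only [Matrix.cons_val]
  have a0 : ((X i : Po 3 k) ^ e 0).totalDegree ≤ e 0 := by
    refine (totalDegree_pow _ _).trans ?_
    rw [totalDegree_X, mul_one]
  have a1 : ((X j : Po 3 k) ^ e 1).totalDegree ≤ e 1 := by
    refine (totalDegree_pow _ _).trans ?_
    rw [totalDegree_X, mul_one]
  have a2 : (J ^ e 2).totalDegree ≤ e 2 * J.totalDegree := totalDegree_pow _ _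
  have a3 : ((C c : Po 3 k) ^ e 3).totalDegree = 0 := by
    rw [← C_pow, totalDegree_C]
  have a4 : (algebraMap k (Po 3 k) (coeff e Φ)).totalDegree = 0 := by
    rw [algebraMap_eq, totalDegree_C]
  have b1 := totalDegree_mul (algebraMap k (Po 3 k) (coeff e Φ))
    ((X i : Po 3 k) ^ e 0 * X j ^ e 1 * J ^ e 2 * C c ^ e 3)
  have b2 := totalDegree_mul ((X i : Po 3 k) ^ e 0 * X j ^ e 1 * J ^ e 2) (C c ^ e 3)
  have b3 := totalDegree_mul ((X i : Po 3 k) ^ e 0 * X j ^ e 1) (J ^ e 2)
  have b4 := totalDegree_mul ((X i : Po 3 k) ^ e 0) (X j ^ e 1)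
  have h3 : e 2 * J.totalDegree ≤ degreeOf 2 Φ * J.totalDegree := Nat.mul_le_mul_right _ h2
  refine b1.trans ?_
  omega

theorem pf_EV4 : T_EV4 := by
  intro k _ _ J i j Φ hI hΦ
  obtain ⟨ρ, hρ⟩ : ∃ ρ : MvPolynomial (Fin 4) k →ₐ[k] Polynomial (MvPolynomial (Fin 3) k),
      ρ = (finSuccEquiv k 3).toAlgHom.comp (rename (finRotate 4)) := ⟨_, rfl⟩
  obtain ⟨ψ, hψ⟩ : ∃ ψ : MvPolynomial (Fin 3) k →ₐ[k] Po 3 k,
      ψ = aeval ![(X i : Po 3 k), X j, J] := ⟨_, rfl⟩
  have hψi : Function.Injective ψ := by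
    rw [hψ]
    exact hI
  have hρi : Function.Injective ρ := by
    rw [hρ]
    exact (finSuccEquiv k 3).injective.comp (rename_injective _ (finRotate 4).injective)
  have hmi : Function.Injective (Polynomial.mapAlgHom ψ) := by
    intro a b hab
    exact Polynomial.map_injective ψ.toRingHom hψi hab
  have hne : Polynomial.mapAlgHom ψ (ρ Φ) ≠ 0 := by
    intro h
    have h1 : ρ Φ = 0 := hmi (by rw [h, map_zero])
    exact hΦ (hρi (by rw [h1, map_zero]))
  have hex : ∃ c : k, (Polynomial.mapAlgHom ψ (ρ Φ)).eval (C c : Po 3 k) ≠ 0 := by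
    by_contra hall
    push Not at hall
    refine hne (Polynomial.eq_zero_of_infinite_isRoot _ ?_)
    refine (Set.infinite_range_of_injective (C_injective (Fin 3) k)).mono ?_
    rintro _ ⟨c, rfl⟩
    exact hall c
  obtain ⟨c, hc⟩ := hex
  refine ⟨c, ?_, ev4_deg J i j Φ c⟩
  have key : aeval ![(X i : Po 3 k), X j, J, C c] Φ =
      (Polynomial.mapAlgHom ψ (ρ Φ)).eval (C c : Po 3 k) := by
    have h2 : (aeval ![(X i : Po 3 k), X j, J, C c] : MvPolynomial (Fin 4) k →ₐ[k] Po 3 k) =
        ((Polynomial.aeval (C c : Po 3 k)).restrictScalars k).comp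
          ((Polynomial.mapAlgHom ψ).comp ρ) := by
      refine algHom_ext fun l => ?_
      have r0 : ρ (X 0) = Polynomial.C (X 0) := by
        rw [hρ]
        change finSuccEquiv k 3 (rename (finRotate 4) (X 0)) = _
        rw [rename_X]
        exact finSuccEquiv_X_succ (j := 0)
      have r1 : ρ (X 1) = Polynomial.C (X 1) := by
        rw [hρ]
        change finSuccEquiv k 3 (rename (finRotate 4) (X 1)) = _
        rw [rename_X]
        exact finSuccEquiv_X_succ (j := 1)
      have r2 : ρ (X 2) = Polynomial.C (X 2) := by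
        rw [hρ]
        change finSuccEquiv k 3 (rename (finRotate 4) (X 2)) = _
        rw [rename_X]
        exact finSuccEquiv_X_succ (j := 2)
      have r3 : ρ (X 3) = Polynomial.X := by
        rw [hρ]
        change finSuccEquiv k 3 (rename (finRotate 4) (X 3)) = _
        rw [rename_X]
        exact finSuccEquiv_X_zero
      simp only [AlgHom.comp_apply, AlgHom.restrictScalars_apply, Polynomial.coe_mapAlgHom]
      fin_cases l
      · change aeval _ (X 0) = Polynomial.aeval _ (Polynomial.map _ (ρ (X 0)))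
        rw [r0, Polynomial.map_C, Polynomial.aeval_C, aeval_X]
        change _ = ψ (X 0)
        rw [hψ, aeval_X]
        rfl
      · change aeval _ (X 1) = Polynomial.aeval _ (Polynomial.map _ (ρ (X 1)))
        rw [r1, Polynomial.map_C, Polynomial.aeval_C, aeval_X]
        change _ = ψ (X 1)
        rw [hψ, aeval_X]
        rfl
      · change aeval _ (X 2) = Polynomial.aeval _ (Polynomial.map _ (ρ (X 2)))
        rw [r2, Polynomial.map_C, Polynomial.aeval_C, aeval_X]
        change _ = ψ (X 2)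
        rw [hψ, aeval_X]
        rfl
      · change aeval _ (X 3) = Polynomial.aeval _ (Polynomial.map _ (ρ (X 3)))
        rw [r3, Polynomial.map_X, Polynomial.aeval_X, aeval_X]
        rfl
    rw [h2]
    rfl
  rw [key]
  exact hc

end Pool.Agent.H60.FFM
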